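import Pool.Agent.Helper76.CV.Goals

/-!
# Goal TPQ of project CV (MP_eec6f5_gt)
-/

open scoped ContDiff
open Filter Topology

namespace Pool.Agent.Helper95.CV.TPQ

open Pool.Agent.Helper76.CV

theorem t (wf2 : Pool.Agent.Helper76.CV.WF2) (wf3 : Pool.Agent.Helper76.CV.WF3)
    (wf4 : Pool.Agent.Helper76.CV.WF4) (ubq : Pool.Agent.Helper76.CV.UBQ)
    (xb : Pool.Agent.Helper76.CV.XB) : Pool.Agent.Helper76.CV.TPQ := by
  intro r D p P a v hD hp hT hv hv2 hz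
  obtain ⟨hcos, hU0, hy1, hC1, hp2, hpi⟩ := xb r D p hD hp
  have hsq : 0 ≤ ‖P p.1.2 - a p.1.1‖ ^ 2 + 1 / 10 ^ 6 := by positivity
  have hZ : Z (‖P p.1.2 - a p.1.1‖ ^ 2) = 13 * W (4 / 25 - v) := by
    rw [hv]; rfl
  have hvsq : v ^ 2 = ‖P p.1.2 - a p.1.1‖ ^ 2 + 1 / 10 ^ 6 := by
    rw [hv]; exact Real.sq_sqrt hsq
  have hv0 : 0 ≤ v := by rw [hv]; exact Real.sqrt_nonneg _
  have hPv : ‖P p.1.2 - a p.1.1‖ < 4 / 25 := by
    have h1 : ‖P p.1.2 - a p.1.1‖ ^ 2 < (4 / 25 : ℝ) ^ 2 := by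
      have : v ^ 2 < (4 / 25 : ℝ) ^ 2 := by nlinarith
      have h3 : (0 : ℝ) < 1 / 10 ^ 6 := by norm_num
      linarith
    exact lt_of_pow_lt_pow_left₀ 2 (by norm_num) h1
  set z : ℝ := 13 * W (4 / 25 - v) with hzdef
  have hcz : Real.cos z = Real.exp (-(13 / 2 * U D p.1)) := by
    rcases hz with h | h
    · rw [← hcos, h, hZ]
    · rw [← hcos, h, hZ, Real.cos_neg]
  have hzpi : z < Real.pi / 2 := by
    have : |z| < Real.pi / 2 := by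
      rcases hz with h | h
      · rw [h, hZ] at hpi; exact hpi
      · rw [h, hZ, abs_neg] at hpi; exact hpi
    exact lt_of_le_of_lt (le_abs_self z) this
  obtain ⟨s0, s10, s11⟩ := wf2 v hv2 hzpi
  obtain ⟨v1, v3⟩ := wf3 v hv2 hzpi
  have h4 := wf4 v hv2 hzpi
  have h5 := ubq z (U D p.1) hcz
  have h6 : Real.tan z ^ 2 = lam v ^ 2 := rfl
  have hUdef : U D p.1 = 1 - ‖p.1.2‖ ^ 2 - D.C p.1.1 := rfl
  refine ⟨hT.sym, hT.idem, hT.Pa _, hT.na _, ?_, ?_, hvsq, v1, hv2, s0, s10, s11, ?_, ?_⟩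
  · rw [hUdef] at hU0; linarith
  · rw [h6] at h5
    rw [hUdef] at h5
    linarith
  · by_cases h : v < 6 / 100
    · exact Or.inr (v3 h)
    · exact Or.inl (not_lt.mp h)
  · have hy0 := hT.y0
    rcases hT.cas with ⟨h1, h2, h3⟩ | ⟨h1, h2, h3, h7⟩
    · left
      refine ⟨h1, h2, h3, ?_⟩
      have h8 := (abs_le.mp hy0).1
      show 552 / 1000 ≤ 1 + 4 / 5 * p.1.2 0
      linarith
    · right
      have h8 := abs_le.mp h7
      refine ⟨h1, h2, h3, ?_, ?_⟩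
      · show 872 / 1000 ≤ 1 + 4 / 5 * p.1.2 0
        linarith [h8.1]
      · show 1 + 4 / 5 * p.1.2 0 ≤ 1128 / 1000
        linarith [h8.2]

end Pool.Agent.Helper95.CV.TPQ
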